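import Pool.Agent.X882.Esc.Up1

set_option autoImplicit false

/-!
# Reflection of the zeros in the unit circle and the upper bound
-/

open Set MeasureTheory MeasureTheory.Measure Filter Polynomial
open scoped ENNReal NNReal Topology unitInterval ComplexConjugate

namespace Pool.Agent.X882.Esc

/-- the polynomial with the zeros reflected in the unit circle -/
noncomputable def refl (M : Multiset ℂ) : ℂ[X] := (M.map fun w => 1 - C (conj w) * X).prod

lemma norm_sub_le_refl {w z : ℂ} (hw : ‖w‖ ≤ 1) (hz : ‖z‖ ≤ 1) : ‖z - w‖ ≤ ‖1 - conj w * z‖ := by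
  have h1 : ‖1 - conj w * z‖ ^ 2 - ‖z - w‖ ^ 2 = (1 - ‖z‖ ^ 2) * (1 - ‖w‖ ^ 2) := by
    rw [← Complex.normSq_eq_norm_sq, ← Complex.normSq_eq_norm_sq, ← Complex.normSq_eq_norm_sq,
      ← Complex.normSq_eq_norm_sq, Complex.normSq_apply, Complex.normSq_apply,
      Complex.normSq_apply, Complex.normSq_apply]
    simp only [Complex.sub_re, Complex.sub_im, Complex.mul_re, Complex.mul_im, Complex.conj_re,
      Complex.conj_im, Complex.one_re, Complex.one_im]
    ring
  have h2 : ‖z‖ ^ 2 ≤ 1 := by have := norm_nonneg z; nlinarith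
  have h3 : ‖w‖ ^ 2 ≤ 1 := by have := norm_nonneg w; nlinarith
  have h4 : 0 ≤ (1 - ‖z‖ ^ 2) * (1 - ‖w‖ ^ 2) := mul_nonneg (by linarith) (by linarith)
  apply le_of_sq_le_sq _ (norm_nonneg _)
  linarith

lemma refl_zero (M : Multiset ℂ) : (refl M).eval 0 = 1 := by
  unfold refl
  induction M using Multiset.induction_on with
  | empty => simp
  | cons a M ih => rw [Multiset.map_cons, Multiset.prod_cons, eval_mul, ih]; simp

lemma refl_natDegree (M : Multiset ℂ) : (refl M).natDegree ≤ Multiset.card M := by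
  unfold refl
  induction M using Multiset.induction_on with
  | empty => simp
  | cons a M ih =>
    rw [Multiset.map_cons, Multiset.prod_cons, Multiset.card_cons]
    refine natDegree_mul_le.trans ?_
    have h1 : (1 - C (conj a) * X : ℂ[X]).natDegree ≤ 1 := by
      refine (natDegree_sub_le _ _).trans (max_le (by simp) ?_)
      exact (natDegree_C_mul_le _ _).trans natDegree_X_le
    omega

lemma refl_root (M : Multiset ℂ) (hM : ∀ w ∈ M, ‖w‖ ≤ 1) (z : ℂ) (hz : (refl M).eval z = 0) :
    1 ≤ ‖z‖ := by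
  unfold refl at hz
  induction M using Multiset.induction_on with
  | empty => simp at hz
  | cons a M ih =>
    rw [Multiset.map_cons, Multiset.prod_cons, eval_mul, mul_eq_zero] at hz
    rcases hz with hz | hz
    · simp only [eval_sub, eval_one, eval_mul, eval_C, eval_X] at hz
      have h1 : conj a * z = 1 := by linear_combination -hz
      have h2 : ‖a‖ * ‖z‖ = 1 := by
        have := congrArg norm h1
        rwa [norm_mul, RCLike.norm_conj, norm_one] at this
      have h3 := hM a (Multiset.mem_cons_self _ _)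
      have h4 := norm_nonneg z
      nlinarith
    · exact ih (fun w hw => hM w (Multiset.mem_cons_of_mem hw)) hz

lemma norm_le_refl (M : Multiset ℂ) (hM : ∀ w ∈ M, ‖w‖ ≤ 1) (z : ℂ) (hz : ‖z‖ ≤ 1) :
    ‖((M.map fun w => X - C w).prod).eval z‖ ≤ ‖(refl M).eval z‖ := by
  unfold refl
  induction M using Multiset.induction_on with
  | empty => simp
  | cons a M ih =>
    rw [Multiset.map_cons, Multiset.prod_cons, eval_mul, Multiset.map_cons, Multiset.prod_cons,
      eval_mul, norm_mul, norm_mul]
    have h1 := norm_sub_le_refl (hM a (Multiset.mem_cons_self _ _)) hz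
    have h2 := ih (fun w hw => hM w (Multiset.mem_cons_of_mem hw))
    apply mul_le_mul _ h2 (norm_nonneg _) (norm_nonneg _)
    simpa using h1

/-- **Linear upper bound.** -/
theorem upper (n : ℕ) (hn : 1 ≤ n) (f : ℂ[X]) (hf : f.Monic) (hd : f.natDegree = n)
    (hz : ∀ z, f.eval z = 0 → ‖z‖ ≤ 1) {ε : ℝ} (hε : 0 < ε) (hε1 : ε < 1) :
    ∃ γ : C(unitInterval, ℂ), γ 0 = 0 ∧ ‖γ 1‖ = 1 ∧ (∀ t, ‖f.eval (γ t)‖ ≤ 1) ∧
      μH[1] (range γ) ≤ 4 * n + ENNReal.ofReal (2 * ε) := by
  have hM : ∀ w ∈ f.roots, ‖w‖ ≤ 1 := fun w hw => hz w (isRoot_of_mem_roots hw)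
  have hprod : (f.roots.map fun w => X - C w).prod = f := by
    have h1 := (IsAlgClosed.splits f).eq_prod_roots_of_monic hf
    exact h1.symm
  have hle : ∀ z : ℂ, ‖z‖ ≤ 1 → ‖f.eval z‖ ≤ ‖(refl f.roots).eval z‖ := by
    intro z hz1
    have := norm_le_refl f.roots hM z hz1
    rwa [hprod] at this
  have hcard : Multiset.card f.roots = n := by
    rw [← hd]
    exact (IsAlgClosed.splits f).natDegree_eq_card_roots.symm
  have hdeg := refl_natDegree f.roots
  rw [hcard] at hdeg
  rcases Nat.eq_zero_or_pos (refl f.roots).natDegree with h0 | hpos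
  · -- all zeros are at the origin
    have hone : ∀ z, (refl f.roots).eval z = 1 := by
      intro z
      rw [eq_C_of_natDegree_eq_zero h0, eval_C, coeff_zero_eq_eval_zero, refl_zero]
    refine ⟨(Path.segment (0 : ℂ) 1).toContinuousMap, ?_, ?_, ?_, ?_⟩
    · exact (Path.segment (0 : ℂ) 1).source
    · have : (Path.segment (0 : ℂ) 1) 1 = 1 := (Path.segment (0 : ℂ) 1).target
      show ‖(Path.segment (0 : ℂ) 1) 1‖ = 1
      rw [this, norm_one]
    · intro t
      have hmem : (Path.segment (0 : ℂ) 1) t ∈ segment ℝ (0 : ℂ) 1 := by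
        rw [← Path.range_segment]; exact mem_range_self t
      have h1 : ‖(Path.segment (0 : ℂ) 1) t‖ ≤ 1 := by
        have := (convex_closedBall (0 : ℂ) 1).segment_subset (x := 0) (y := 1)
          (by simp) (by simp) hmem
        rwa [mem_closedBall_zero_iff] at this
      refine (hle _ h1).trans ?_
      rw [hone, norm_one]
    · have h2 : range (Path.segment (0 : ℂ) 1).toContinuousMap = segment ℝ (0 : ℂ) 1 :=
        Path.range_segment 0 1
      rw [h2, hausdorffMeasure_segment]
      have h3 : edist (0 : ℂ) 1 = 1 := by rw [edist_dist]; simp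
      rw [h3]
      have h4 : (1 : ℝ≥0∞) ≤ 4 * n := by
        have : 1 ≤ 4 * n := by omega
        exact_mod_cast this
      exact h4.trans (le_add_right le_rfl)
  · obtain ⟨p, γ, hp, hγ, hlen⟩ := upper_path (refl f.roots) (refl_zero _) hpos
      (refl_root f.roots hM) hε hε1
    refine ⟨γ.toContinuousMap, γ.source, ?_, ?_, ?_⟩
    · have : γ 1 = p := γ.target
      show ‖γ 1‖ = 1
      rw [this, hp]
    · intro t
      exact (hle _ (hγ t).2).trans (hγ t).1
    · refine (show μH[1] (range γ.toContinuousMap) = μH[1] (range γ) from rfl).le.trans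
        (hlen.trans ?_)
      gcongr

end Pool.Agent.X882.Esc
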