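import Pool.Agent.Esc405.M8

set_option autoImplicit false

/-!
# The polynomials with large values on the walls of the tube
-/

namespace Pool.Agent.X882.Esc
open Complex Polynomial Esc405

/-- the degree bound -/
def N0 (J : ℕ) : ℕ :=
  250 * 100 ^ J * 8 ^ (30 * J + 60) + 3 * (1000 * 100 ^ J * 11 ^ (30 * J + 60) + 3)

lemma half_pow (L m : ℕ) (hm : 3 * (L + 3) ≤ m) : (3 / 4 : ℝ) ^ m ≤ 1 / (8 * 2 ^ L) := by
  calc (3 / 4 : ℝ) ^ m ≤ (3 / 4 : ℝ) ^ (3 * (L + 3)) :=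
        pow_le_pow_of_le_one (by norm_num) (by norm_num) hm
    _ = ((3 / 4 : ℝ) ^ 3) ^ (L + 3) := by rw [pow_mul]
    _ ≤ (1 / 2) ^ (L + 3) := pow_le_pow_left₀ (by norm_num) (by norm_num) _
    _ = 1 / (8 * 2 ^ L) := by rw [pow_add, one_div_pow, one_div_pow]; norm_num

lemma exp_wall_im {v : ℂ} (hv : |v.im| = 1 / 10) :
    (exp (10 * Real.pi * v)).re = -Real.exp (10 * Real.pi * v.re) := by
  rw [Complex.exp_re]
  have h1 : (10 * (Real.pi : ℂ) * v).re = 10 * Real.pi * v.re := by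
    have h6 : 10 * (Real.pi : ℂ) * v = ((10 * Real.pi : ℝ) : ℂ) * v := by push_cast; ring
    rw [h6, Complex.re_ofReal_mul]
  have h2 : (10 * (Real.pi : ℂ) * v).im = 10 * Real.pi * v.im := by
    have h6 : 10 * (Real.pi : ℂ) * v = ((10 * Real.pi : ℝ) : ℂ) * v := by push_cast; ring
    rw [h6, Complex.im_ofReal_mul]
  rw [h1, h2]
  have h3 : Real.cos (10 * Real.pi * v.im) = -1 := by
    rcases abs_eq (by norm_num : (0 : ℝ) ≤ 1 / 10) |>.1 hv with h | h
    · rw [h]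
      have : 10 * Real.pi * (1 / 10) = Real.pi := by ring
      rw [this, Real.cos_pi]
    · rw [h]
      have : 10 * Real.pi * (-(1 / 10)) = -Real.pi := by ring
      rw [this, Real.cos_neg, Real.cos_pi]
  rw [h3]; ring

lemma exp_wall_re {v : ℂ} (hv : v.re = -1) : ‖exp (10 * Real.pi * v)‖ ≤ 1 / 8 := by
  rw [Complex.norm_exp]
  have h1 : (10 * (Real.pi : ℂ) * v).re = 10 * Real.pi * v.re := by
    have h6 : 10 * (Real.pi : ℂ) * v = ((10 * Real.pi : ℝ) : ℂ) * v := by push_cast; ring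
    rw [h6, Complex.re_ofReal_mul]
  rw [h1, hv]
  have h2 : Real.exp (10 * Real.pi * -1) ≤ Real.exp (-3) := by
    apply Real.exp_le_exp.2
    have := Real.pi_gt_three
    nlinarith
  refine h2.trans ?_
  rw [Real.exp_neg, one_div]
  apply inv_anti₀ (by norm_num)
  have h3 : Real.exp 3 = Real.exp 1 ^ 3 := by rw [← Real.exp_nat_mul]; norm_num
  rw [h3]
  have h4 : (2 : ℝ) ≤ Real.exp 1 := by
    have := Real.add_one_le_exp (1 : ℝ); linarith
  calc (8 : ℝ) = 2 ^ 3 := by norm_num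
    _ ≤ _ := pow_le_pow_left₀ (by norm_num) h4 3

lemma aux1 {κ a b : ℝ} (hκ0 : 0 < κ) (ha : 7 / 8 ≤ a) (hb : b ≤ 1 / 4) :
    1 + 5 / 8 * κ ≤ 1 + κ * (a - b) := by
  have h : 5 / 8 ≤ a - b := by linarith
  have := mul_le_mul_of_nonneg_left h hκ0.le
  linarith

lemma aux2 {κ : ℝ} (hκ0 : 0 < κ) (hκ1 : κ ≤ 1 / 4) : (1 : ℝ) < (1 + 5 / 8 * κ) * (1 - κ / 2) := by
  nlinarith

/-- **The polynomials.** -/
theorem exists_f (J : ℕ) (hJ : 1 ≤ J) (n : ℕ) (hn : N0 J ≤ n) : ∃ f : ℂ[X], f.Monic ∧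
    f.natDegree = n ∧ (∀ z, f.eval z = 0 → ‖z‖ ≤ 1) ∧
    ∀ v ∈ Sig J, (|v.im| = 1 / 10 ∨ v.re = -1) → 1 < ‖f.eval (phi J v)‖ := by
  obtain ⟨P, hPd, hPB, hP⟩ := exists_P J hJ
  obtain ⟨L, hL⟩ : ∃ L : ℕ, L = 1000 * 100 ^ J * 11 ^ (30 * J + 60) := ⟨_, rfl⟩
  rw [← hL] at hPB
  obtain ⟨B, hB⟩ : ∃ B : ℝ, B = 2 ^ L := ⟨_, rfl⟩
  rw [← hB] at hPB
  have hB1 : 1 ≤ B := by rw [hB]; exact one_le_pow₀ (by norm_num)
  have hB0 : 0 < B := by linarith
  obtain ⟨κ, hκ⟩ : ∃ κ : ℝ, κ = 1 / (4 * B) := ⟨_, rfl⟩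
  have hκ0 : 0 < κ := by rw [hκ]; positivity
  have hκ1 : κ ≤ 1 / 4 := by
    rw [hκ, div_le_div_iff₀ (by positivity) (by norm_num)]; linarith
  obtain ⟨g, hg⟩ : ∃ g : ℂ[X], g = C (1 + (κ : ℂ) * P.eval 0) - C (κ : ℂ) * P := ⟨_, rfl⟩
  have hge : ∀ z, g.eval z = 1 + (κ : ℂ) * (P.eval 0 - P.eval z) := by
    intro z; simp only [hg, eval_sub, eval_C, eval_mul]; ring
  have hg0 : g.coeff 0 = 1 := by
    rw [coeff_zero_eq_eval_zero, hge]; ring
  have hgd : g.natDegree ≤ 250 * 100 ^ J * 8 ^ (30 * J + 60) := by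
    rw [hg]
    refine (natDegree_sub_le _ _).trans (max_le ((natDegree_C _).le.trans (Nat.zero_le _)) ?_)
    exact (natDegree_C_mul_le _ _).trans hPd
  have hP0 := hPB 0 (by simp)
  have hgn : ∀ z : ℂ, ‖z‖ ≤ 1 → g.eval z ≠ 0 := by
    intro z hz h0
    rw [hge] at h0
    have h1 : ‖(κ : ℂ) * (P.eval 0 - P.eval z)‖ ≤ 1 / 2 := by
      rw [norm_mul, Complex.norm_real, Real.norm_eq_abs, abs_of_pos hκ0]
      have h2 : ‖P.eval 0 - P.eval z‖ ≤ 2 * B := by
        refine (norm_sub_le _ _).trans ?_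
        have := hPB z (by linarith)
        linarith
      calc κ * ‖P.eval 0 - P.eval z‖ ≤ κ * (2 * B) := by gcongr
        _ = 1 / 2 := by rw [hκ]; field_simp; norm_num
    have h3 : (κ : ℂ) * (P.eval 0 - P.eval z) = -1 := by linear_combination h0
    rw [h3, norm_neg, norm_one] at h1
    norm_num at h1
  obtain ⟨m, hm⟩ : ∃ m, n = m + g.natDegree := ⟨n - g.natDegree, by unfold N0 at hn; omega⟩
  have hm3 : 3 * (L + 3) ≤ m := by
    unfold N0 at hn
    rw [← hL] at hn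
    omega
  have hm1 : 1 ≤ m := by omega
  refine ⟨fam g m, fam_monic g hg0 m hm1, ?_, ?_, ?_⟩
  · rw [fam_natDegree g hg0 m hm1, hm]
  · intro z hz
    have h1 := fam_roots g hgn m hm1
    have h2 : z ∈ (fam g m).rootSet ℂ := by
      rw [mem_rootSet]
      exact ⟨(fam_monic g hg0 m hm1).ne_zero, by simpa using hz⟩
    have := h1 h2
    rwa [mem_closedBall_zero_iff] at this
  · intro v hv hw
    have hz : ‖phi J v‖ ≤ 1 / 2 := T_small J ⟨v, hv, rfl⟩
    have h0S : (0 : ℂ) ∈ Sig J := by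
      refine ⟨by simp, by simp; positivity, by simp⟩
    have hR0 : R 0 = 0 := by simp [R]
    have hphi0 : phi J 0 = 0 := by
      unfold phi
      rw [Function.iterate_fixed hR0]
      simp
    have e0 := hP 0 h0S
    rw [hphi0, mul_zero, Complex.exp_zero] at e0
    have ev := hP v hv
    have r0 : 7 / 8 ≤ (P.eval 0).re := by
      have h1 := (Complex.abs_re_le_norm (P.eval 0 - 1)).trans e0
      rw [Complex.sub_re, Complex.one_re] at h1
      have := (abs_le.1 h1).1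
      linarith
    have rv : (P.eval (phi J v)).re ≤ 1 / 4 := by
      have h1 := (Complex.abs_re_le_norm (P.eval (phi J v) - exp (10 * Real.pi * v))).trans ev
      rw [Complex.sub_re] at h1
      have h2 := (abs_le.1 h1).2
      rcases hw with hw | hw
      · rw [exp_wall_im hw] at h2
        have := Real.exp_pos (10 * Real.pi * v.re)
        linarith
      · have h3 := (Complex.abs_re_le_norm (exp (10 * Real.pi * v))).trans (exp_wall_re hw)
        have := (abs_le.1 h3).2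
        linarith
    have hgv : 1 + 5 / 8 * κ ≤ ‖g.eval (phi J v)‖ := by
      refine le_trans ?_ (Complex.re_le_norm _)
      rw [hge, Complex.add_re, Complex.one_re, Complex.re_ofReal_mul, Complex.sub_re]
      exact aux1 hκ0 r0 rv
    have hfl := fam_large g hgn m (phi J v) (by linarith)
    have hpow := half_pow L m hm3
    have hpow2 : (3 / 4 : ℝ) ^ m ≤ κ / 2 := by
      rw [← hB] at hpow
      refine hpow.trans (le_of_eq ?_)
      rw [hκ, div_div]
      congr 1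
      ring
    refine lt_of_lt_of_le ?_ hfl
    have h5 : 1 - κ / 2 ≤ 1 - (3 / 4 : ℝ) ^ m := by linarith
    calc (1 : ℝ) < (1 + 5 / 8 * κ) * (1 - κ / 2) := aux2 hκ0 hκ1
      _ ≤ ‖g.eval (phi J v)‖ * (1 - (3 / 4) ^ m) := by
          apply mul_le_mul hgv h5 (by linarith) (norm_nonneg _)

end Pool.Agent.X882.Esc
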