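import Pool.Agent.X882.Esc.Low1
import Pool.Agent.Esc405.M10
import Pool.Agent.Esc405.M11

set_option autoImplicit false

/-!
# Long escape paths
-/

open Set MeasureTheory MeasureTheory.Measure
open scoped ENNReal NNReal Topology

namespace Pool.Agent.X882.Esc
open Esc405

lemma mem_U {v : ℂ} (h : |v.im| ≤ 1 / 10) : v ∈ U := by
  show |v.im| ≤ 1
  linarith

lemma differentiable_iter (K : ℕ) : Differentiable ℂ (R^[K]) := fun v =>
  (hasDerivAt_iter K v).differentiableAt

lemma open_phi (K : ℕ) (O : Set ℂ) (hO : IsOpen O) (hU : O ⊆ {v | |v.im| ≤ 1}) :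
    IsOpen (phi K '' O) := by
  rw [isOpen_iff_mem_nhds]
  rintro _ ⟨v, hv, rfl⟩
  have hv1 : v ∈ U := hU hv
  have hd : HasStrictDerivAt (phi K) (D K v / 16) v := by
    have h1 : HasDerivAt (phi K) (D K v / 16) v := (hasDerivAt_iter K v).div_const 16
    have h2 : Differentiable ℂ (phi K) := fun w => ((hasDerivAt_iter K w).div_const 16).differentiableAt
    have h3 := (h2.analyticAt v).hasStrictDerivAt
    rwa [h1.deriv] at h3
  have hne : D K v / 16 ≠ 0 := by
    have h4 := D_lower hv1 K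
    have h5 : (0 : ℝ) < (63 / 6400) ^ K := by positivity
    have h6 : D K v ≠ 0 := norm_pos_iff.1 (lt_of_lt_of_le h5 h4)
    exact div_ne_zero h6 (by norm_num)
  rw [← hd.map_nhds_eq hne]
  exact Filter.image_mem_map (hO.mem_nhds hv)

lemma phi_step (J : ℕ) (x : ℝ) {v v' : ℂ} (hv : v.re = x) (hv' : v'.re = x + Real.pi / 4)
    (h : |v.im| ≤ 1 / 10) (h' : |v'.im| ≤ 1 / 10) :
    ‖D J (x : ℂ)‖ / 25 ≤ ‖phi J v' - phi J v‖ := by
  have hvU := mem_U h
  have hvU' := mem_U h'
  have hxU : (x : ℂ) ∈ U := by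
    show |(x : ℂ).im| ≤ 1
    simp
  have hpi := Real.pi_gt_three
  have hpi2 := Real.pi_lt_d2
  have hre : (v' - v).re = Real.pi / 4 := by rw [Complex.sub_re, hv, hv']; ring
  have him : |(v' - v).im| ≤ 1 / 5 := by
    rw [Complex.sub_im]
    calc |v'.im - v.im| ≤ |v'.im| + |v.im| := abs_sub _ _
      _ ≤ 1 / 5 := by linarith
  have hlow : 3 / 4 ≤ ‖v' - v‖ := by
    have := Complex.abs_re_le_norm (v' - v)
    rw [hre, abs_of_pos (by positivity)] at this
    linarith
  have hup : ‖v' - v‖ ≤ 2 := by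
    have := Complex.norm_le_abs_re_add_abs_im (v' - v)
    rw [hre, abs_of_pos (by positivity)] at this
    linarith
  have h1 := h396_near_lower J hvU hvU' hup
  have hxv : ‖v - x‖ ≤ 1 / 10 := by
    have h2 : v - x = (v.im : ℂ) * Complex.I := by
      apply Complex.ext <;> simp [hv]
    rw [h2, norm_mul, Complex.norm_real, Complex.norm_I, mul_one, Real.norm_eq_abs]
    exact h
  have h3 := D_dist J hxU hvU (by linarith)
  have h4 : ‖D J (x : ℂ)‖ ≤ ‖D J v‖ + ‖D J v - D J (x : ℂ)‖ := by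
    have e : D J (x : ℂ) = D J v - (D J v - D J (x : ℂ)) := by ring
    calc ‖D J (x : ℂ)‖ = ‖D J v - (D J v - D J (x : ℂ))‖ := by rw [← e]
      _ ≤ _ := norm_sub_le _ _
  have h5 : ‖v - x‖ / 50 * ‖D J (x : ℂ)‖ ≤ 1 / 500 * ‖D J (x : ℂ)‖ := by
    apply mul_le_mul_of_nonneg_right _ (norm_nonneg _)
    linarith
  have h6 : 499 / 500 * ‖D J (x : ℂ)‖ ≤ ‖D J v‖ := by linarith
  have h7 : ‖phi J v' - phi J v‖ = ‖R^[J] v' - R^[J] v‖ / 16 := by
    unfold phi
    rw [← sub_div, norm_div]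
    congr 1
    norm_num
  rw [h7]
  have h8 : 24 / 25 * ‖D J v‖ * (3 / 4) ≤ 24 / 25 * ‖D J v‖ * ‖v' - v‖ := by
    apply mul_le_mul_of_nonneg_left hlow
    have := norm_nonneg (D J v)
    positivity
  have h9 := norm_nonneg (D J (x : ℂ))
  linarith

/-- **Long paths.** -/
theorem long_path (J : ℕ) {Γ : Set ℂ} (hΓ : IsPreconnected Γ) (hm : MeasurableSet Γ)
    (h0 : (0 : ℂ) ∈ Γ) (h1 : ∃ z ∈ Γ, ‖z‖ = 1)
    (hw : ∀ v ∈ Sig J, (|v.im| = 1 / 10 ∨ v.re = -1) → phi J v ∉ Γ) :
    ENNReal.ofReal (8 / 25 * Real.exp (J / 10 ^ 5)) ≤ μH[1] Γ := by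
  have hR0 : R 0 = 0 := by simp [R]
  have hphi0 : phi J 0 = 0 := by
    unfold phi
    rw [Function.iterate_fixed hR0]
    simp
  have hpi := Real.pi_pos
  have hcont : Continuous (phi J) := cont_phi833 J
  have key := tube_length (g := phi J) hcont (X := 2 * Real.pi * 100 ^ J) (h := 1 / 10)
    (by norm_num) (by norm_num) (fun O hO hOU => open_phi J O hO hOU)
    (by
      rintro v ⟨_, _, hv⟩ v' ⟨_, _, hv'⟩ he
      apply iter_inj J (mem_U hv) (mem_U hv')
      have : R^[J] v / 16 = R^[J] v' / 16 := he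
      field_simp at this
      exact this)
    (8 * 100 ^ J) (fun i => (i : ℝ) * (Real.pi / 4)) (fun i => ‖D J (((i : ℝ) * (Real.pi / 4) : ℝ) : ℂ)‖ / 25)
    (by
      intro i j hij
      have : (i : ℝ) < j := by exact_mod_cast hij
      simp only
      gcongr)
    (by simp)
    (by
      push_cast
      apply le_of_eq
      ring)
    (by
      intro i _ v v' hv hv' h h'
      apply phi_step J _ hv _ h h'
      rw [hv']
      push_cast
      ring)
    hΓ hm (by rw [hphi0]; exact h0)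
    (by
      obtain ⟨z, hz, hz1⟩ := h1
      refine ⟨z, hz, fun hcon => ?_⟩
      have : ‖z‖ ≤ 1 / 2 := T_small J hcon
      rw [hz1] at this
      norm_num at this)
    (by
      intro v h1 h2 h3 h4
      exact hw v ⟨h1, h2, h3⟩ h4)
  refine le_trans ?_ key
  rw [← ENNReal.ofReal_sum_of_nonneg (fun i _ => by positivity)]
  apply ENNReal.ofReal_le_ofReal
  have hg := growth J
  rw [← Finset.sum_div]
  linarith

end Pool.Agent.X882.Esc
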