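import Pool.Agent.X882.Esc.Low2

set_option autoImplicit false

/-!
# The power lower bound
-/

open Set MeasureTheory MeasureTheory.Measure Filter
open scoped ENNReal NNReal Topology

namespace Pool.Agent.X882.Esc
open Esc405

lemma exp5_ge : (121 : ℝ) ≤ Real.exp 5 := by
  have h3 : Real.exp 5 = Real.exp 1 ^ 5 := by rw [← Real.exp_nat_mul]; norm_num
  rw [h3]
  have h4 := Real.exp_one_gt_d9
  calc (121 : ℝ) ≤ 2.7 ^ 5 := by norm_num
    _ ≤ _ := pow_le_pow_left₀ (by norm_num) (by linarith) 5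

lemma exp9_ge : (3259 : ℝ) ≤ Real.exp 9 := by
  have h3 : Real.exp 9 = Real.exp 1 ^ 9 := by rw [← Real.exp_nat_mul]; norm_num
  rw [h3]
  have h4 := Real.exp_one_gt_d9
  calc (3259 : ℝ) ≤ 2.7 ^ 9 := by norm_num
    _ ≤ _ := pow_le_pow_left₀ (by norm_num) (by linarith) 9

lemma N0_le (J : ℕ) : (N0 J : ℝ) ≤ Real.exp (80 * J + 159) := by
  have h1 : (N0 J : ℝ) ≤ 3259 * (100 ^ J * 11 ^ (30 * J + 60)) := by
    have e : (N0 J : ℝ) = 250 * 100 ^ J * 8 ^ (30 * J + 60) +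
        3 * (1000 * 100 ^ J * 11 ^ (30 * J + 60) + 3) := by
      unfold N0; push_cast; ring
    rw [e]
    have a1 : (1 : ℝ) ≤ 100 ^ J := one_le_pow₀ (by norm_num)
    have a2 : (8 : ℝ) ^ (30 * J + 60) ≤ 11 ^ (30 * J + 60) :=
      pow_le_pow_left₀ (by norm_num) (by norm_num) _
    have a3 : (1 : ℝ) ≤ 11 ^ (30 * J + 60) := one_le_pow₀ (by norm_num)
    have a4 : (250 : ℝ) * 100 ^ J * 8 ^ (30 * J + 60) ≤ 250 * 100 ^ J * 11 ^ (30 * J + 60) :=
      mul_le_mul_of_nonneg_left a2 (by positivity)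
    have a5 : (1 : ℝ) ≤ 100 ^ J * 11 ^ (30 * J + 60) := one_le_mul_of_one_le_of_one_le a1 a3
    linarith
  have h2 : (100 : ℝ) ^ J ≤ Real.exp (5 * J) := by
    calc (100 : ℝ) ^ J ≤ Real.exp 5 ^ J :=
          pow_le_pow_left₀ (by norm_num) (by linarith [exp5_ge]) _
      _ = Real.exp (5 * J) := by rw [← Real.exp_nat_mul, mul_comm]
  have h3 : (11 : ℝ) ^ (30 * J + 60) ≤ Real.exp (75 * J + 150) := by
    calc (11 : ℝ) ^ (30 * J + 60) = ((11 : ℝ) ^ 2) ^ (15 * J + 30) := by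
          rw [← pow_mul]; congr 1; ring
      _ ≤ Real.exp 5 ^ (15 * J + 30) :=
          pow_le_pow_left₀ (by norm_num) (by norm_num; exact exp5_ge) _
      _ = Real.exp (75 * J + 150) := by
          rw [← Real.exp_nat_mul]; congr 1; push_cast; ring
  calc (N0 J : ℝ) ≤ 3259 * (100 ^ J * 11 ^ (30 * J + 60)) := h1
    _ ≤ Real.exp 9 * (Real.exp (5 * J) * Real.exp (75 * J + 150)) := by
        apply mul_le_mul exp9_ge _ (by positivity) (by positivity)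
        exact mul_le_mul h2 h3 (by positivity) (by positivity)
    _ = Real.exp (80 * J + 159) := by
        rw [← Real.exp_add, ← Real.exp_add]; congr 1; ring

lemma final_num (n : ℕ) (hn : 10 ^ 8 ≤ Real.log n) : ∃ J : ℕ, 1 ≤ J ∧ N0 J ≤ n ∧
    (n : ℝ) ^ (1 / 10 ^ 7 : ℝ) ≤ 8 / 25 * Real.exp (J / 10 ^ 5) := by
  have hn0 : (0 : ℝ) < n := by
    by_contra h
    have h0 : (n : ℝ) = 0 := le_antisymm (not_lt.1 h) (Nat.cast_nonneg n)
    rw [h0, Real.log_zero] at hn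
    norm_num at hn
  set ℓ := Real.log n with hℓ
  have hJ0 : 0 ≤ (ℓ - 159) / 80 := by
    apply div_nonneg _ (by norm_num)
    linarith
  refine ⟨⌊(ℓ - 159) / 80⌋₊, ?_, ?_, ?_⟩
  · rw [Nat.one_le_floor_iff]
    rw [le_div_iff₀ (by norm_num)]
    linarith
  · have h1 := Nat.floor_le hJ0
    have h2 := N0_le ⌊(ℓ - 159) / 80⌋₊
    have h3 : Real.exp (80 * (⌊(ℓ - 159) / 80⌋₊ : ℝ) + 159) ≤ n := by
      calc Real.exp (80 * (⌊(ℓ - 159) / 80⌋₊ : ℝ) + 159) ≤ Real.exp ℓ := by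
            apply Real.exp_le_exp.2
            rw [le_div_iff₀ (by norm_num)] at h1
            linarith
        _ = n := Real.exp_log hn0
    exact_mod_cast h2.trans h3
  · have h1 := Nat.lt_floor_add_one ((ℓ - 159) / 80)
    rw [div_lt_iff₀ (by norm_num)] at h1
    have h2 : (n : ℝ) ^ (1 / 10 ^ 7 : ℝ) = Real.exp (ℓ / 10 ^ 7) := by
      rw [Real.rpow_def_of_pos hn0, ← hℓ]
      congr 1
      ring
    have h3 : Real.exp (-2) ≤ 8 / 25 := by
      rw [Real.exp_neg]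
      have h4 : (25 / 8 : ℝ) ≤ Real.exp 2 := by
        have h5 : Real.exp 2 = Real.exp 1 ^ 2 := by rw [← Real.exp_nat_mul]; norm_num
        rw [h5]
        have h4 := Real.exp_one_gt_d9
        calc (25 / 8 : ℝ) ≤ 2.7 ^ 2 := by norm_num
          _ ≤ _ := pow_le_pow_left₀ (by norm_num) (by linarith) 2
      calc (Real.exp 2)⁻¹ ≤ (25 / 8 : ℝ)⁻¹ := inv_anti₀ (by norm_num) h4
        _ = 8 / 25 := by norm_num
    rw [h2]
    calc Real.exp (ℓ / 10 ^ 7) ≤ Real.exp (-2 + (⌊(ℓ - 159) / 80⌋₊ : ℝ) / 10 ^ 5) := by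
          apply Real.exp_le_exp.2
          linarith
      _ = Real.exp (-2) * Real.exp ((⌊(ℓ - 159) / 80⌋₊ : ℝ) / 10 ^ 5) := Real.exp_add _ _
      _ ≤ _ := mul_le_mul_of_nonneg_right h3 (Real.exp_pos _).le

/-- **Power lower bound.** -/
theorem lower (n : ℕ) (hn : 10 ^ 8 ≤ Real.log n) : ∃ f : Polynomial ℂ, f.Monic ∧
    f.natDegree = n ∧ (∀ z, f.eval z = 0 → ‖z‖ ≤ 1) ∧
    ∀ γ : C(unitInterval, ℂ), γ 0 = 0 → ‖γ 1‖ = 1 → (∀ t, ‖f.eval (γ t)‖ ≤ 1) →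
      ENNReal.ofReal ((n : ℝ) ^ (1 / 10 ^ 7 : ℝ)) ≤ μH[1] (range γ) := by
  obtain ⟨J, hJ, hJn, hJ2⟩ := final_num n hn
  obtain ⟨f, hf1, hf2, hf3, hf4⟩ := exists_f J hJ n hJn
  refine ⟨f, hf1, hf2, hf3, fun γ h0 h1 hγ => ?_⟩
  refine (ENNReal.ofReal_le_ofReal hJ2).trans ?_
  apply long_path J (isPreconnected_range γ.continuous)
    (isCompact_range γ.continuous).measurableSet ⟨0, h0⟩ ⟨γ 1, ⟨1, rfl⟩, h1⟩
  rintro v hv hw ⟨t, ht⟩
  have := hf4 v hv hw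
  rw [← ht] at this
  exact absurd (hγ t) (not_le.2 this)

end Pool.Agent.X882.Esc
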