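import Pool.Agent.Esc405.U2
import Pool.Agent.Esc405.U3
import Pool.Agent.Esc405.U5

set_option autoImplicit false

/-!
# A linear upper bound for the escape length
-/

open Set MeasureTheory MeasureTheory.Measure Filter Polynomial
open scoped ENNReal NNReal Topology unitInterval

namespace Pool.Agent.X882.Esc
open Esc405

/-- near the zeros the polynomial is small, and small values are only taken near zeros -/
lemma near_zero (F : ℂ[X]) {ε : ℝ} (hε : 0 < ε) : ∃ δ : ℝ, 0 < δ ∧ ∀ z : ℂ, ‖z‖ ≤ 1 →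
    ‖F.eval z‖ < δ → ∃ a : ℂ, ∃ η : ℝ, η ≤ ε ∧ F.eval a = 0 ∧ z ∈ Metric.ball a η ∧
      ∀ y ∈ Metric.ball a η, ‖F.eval y‖ ≤ 1 := by
  have h1 : ∀ a : ℂ, ∃ η : ℝ, 0 < η ∧ η ≤ ε ∧ (F.eval a = 0 →
      ∀ y ∈ Metric.ball a η, ‖F.eval y‖ ≤ 1) := by
    intro a
    by_cases ha : F.eval a = 0
    · have hc : ContinuousAt (fun y => ‖F.eval y‖) a := F.continuous.norm.continuousAt
      have h2 : ∀ᶠ y in 𝓝 a, ‖F.eval y‖ < 1 := by
        apply hc.eventually_lt continuousAt_const
        simp [ha]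
      obtain ⟨η, hη, h3⟩ := Metric.eventually_nhds_iff_ball.1 h2
      exact ⟨min η ε, lt_min hη hε, min_le_right _ _, fun _ y hy =>
        (h3 y (Metric.ball_subset_ball (min_le_left _ _) hy)).le⟩
    · exact ⟨ε, hε, le_rfl, fun h => absurd h ha⟩
  choose η hη0 hηε hη using h1
  set K : Set ℂ := Metric.closedBall 0 1 ∩ (⋃ a ∈ {a : ℂ | F.eval a = 0}, Metric.ball a (η a))ᶜ
    with hK
  have hKc : IsCompact K := by
    apply (isCompact_closedBall (0 : ℂ) 1).inter_right
    rw [isClosed_compl_iff]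
    exact isOpen_biUnion fun a _ => Metric.isOpen_ball
  have hKn : ∀ z ∈ K, F.eval z ≠ 0 := by
    intro z hz h0
    apply hz.2
    simp only [mem_iUnion, exists_prop]
    exact ⟨z, h0, Metric.mem_ball_self (hη0 z)⟩
  have hmin : ∃ δ : ℝ, 0 < δ ∧ ∀ z ∈ K, δ ≤ ‖F.eval z‖ := by
    rcases K.eq_empty_or_nonempty with hE | hE
    · exact ⟨1, one_pos, fun z hz => by rw [hE] at hz; exact absurd hz (notMem_empty z)⟩
    · obtain ⟨z₀, hz₀, hmin⟩ := hKc.exists_isMinOn hE F.continuous.norm.continuousOn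
      exact ⟨‖F.eval z₀‖, norm_pos_iff.2 (hKn z₀ hz₀), fun z hz => hmin hz⟩
  obtain ⟨δ, hδ, hδK⟩ := hmin
  refine ⟨δ, hδ, fun z hz hzF => ?_⟩
  have hzK : z ∉ K := fun h => absurd (hδK z h) (not_le.2 hzF)
  have h2 : z ∈ ⋃ a ∈ {a : ℂ | F.eval a = 0}, Metric.ball a (η a) := by
    by_contra hcon
    exact hzK ⟨by rwa [mem_closedBall_zero_iff], hcon⟩
  simp only [mem_iUnion, exists_prop] at h2
  obtain ⟨a, ha, hza⟩ := h2
  exact ⟨a, η a, hηε a, ha, hza, hη a ha⟩

/-- The path along a lifted segment. -/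
noncomputable def curvePath (z : ℝ → ℂ) (hz : Continuous z) (T : ℝ) : Path (z 0) (z T) where
  toFun t := z (t * T)
  continuous_toFun := by fun_prop
  source' := by simp
  target' := by simp

lemma range_curvePath (z : ℝ → ℂ) (hz : Continuous z) {T : ℝ} (hT : 0 ≤ T) :
    range (curvePath z hz T) ⊆ z '' Icc 0 T := by
  rintro _ ⟨t, rfl⟩
  refine ⟨t * T, ⟨mul_nonneg t.2.1 hT, ?_⟩, rfl⟩
  exact mul_le_of_le_one_left hT t.2.2

/-- Escape path for a polynomial without zeros in the open unit disc. -/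
theorem upper_path (F : ℂ[X]) (h0 : F.eval 0 = 1) (hn : 0 < F.natDegree)
    (hz : ∀ z : ℂ, F.eval z = 0 → 1 ≤ ‖z‖) {ε : ℝ} (hε : 0 < ε) (hε1 : ε < 1) :
    ∃ p : ℂ, ∃ γ : Path (0 : ℂ) p, ‖p‖ = 1 ∧ (∀ t, ‖F.eval (γ t)‖ ≤ 1 ∧ ‖γ t‖ ≤ 1) ∧
      μH[1] (range γ) ≤ 4 * F.natDegree + ENNReal.ofReal (2 * ε) := by
  obtain ⟨z₀, hz₀, hFz₀, hseg, hcrit⟩ := exists_start F h0 hn ε hε
  obtain ⟨δ, hδ, hnear⟩ := near_zero F hε
  have hF1 : ‖F.eval z₀‖ ≤ 1 := by simpa using hseg 1 zero_le_one le_rfl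
  have hFpos : 0 < ‖F.eval z₀‖ := norm_pos_iff.2 hFz₀
  -- the final time
  obtain ⟨τ, hτ0, hτ1, hτδ⟩ : ∃ τ : ℝ, 0 < τ ∧ τ < 1 ∧ (1 - τ) * ‖F.eval z₀‖ < δ := by
    refine ⟨1 - min (1 / 2) (δ / 2), ?_, ?_, ?_⟩
    · have := min_le_left (1 / 2 : ℝ) (δ / 2)
      linarith
    · have : 0 < min (1 / 2 : ℝ) (δ / 2) := lt_min (by norm_num) (by linarith)
      linarith
    · have h1 := min_le_right (1 / 2 : ℝ) (δ / 2)
      have h2 : 0 < min (1 / 2 : ℝ) (δ / 2) := lt_min (by norm_num) (by linarith)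
      have h3 : 1 - (1 - min (1 / 2) (δ / 2)) = min (1 / 2) (δ / 2) := by ring
      rw [h3]
      calc min (1 / 2) (δ / 2) * ‖F.eval z₀‖ ≤ min (1 / 2) (δ / 2) * 1 := by gcongr
        _ < δ := by linarith
  obtain ⟨z, hzc, hz0, hlift⟩ := exists_lift F z₀ hcrit τ hτ0 hτ1
  have hzn0 : ‖z 0‖ < 1 := by rw [hz0]; linarith
  -- the first piece
  have hseg1 : ∀ y ∈ segment ℝ (0 : ℂ) (z 0), ‖F.eval y‖ ≤ 1 ∧ ‖y‖ ≤ 1 := by
    intro y hy
    rw [hz0] at hy
    rw [segment_eq_image] at hy
    obtain ⟨t, ht, rfl⟩ := hy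
    have e : (1 - t) • (0 : ℂ) + t • z₀ = (t : ℂ) * z₀ := by
      rw [smul_zero, zero_add, Complex.real_smul]
    simp only [e]
    refine ⟨hseg t ht.1 ht.2, ?_⟩
    rw [norm_mul, Complex.norm_real, Real.norm_eq_abs, abs_of_nonneg ht.1]
    have := ht.2
    have := ht.1
    have := norm_nonneg z₀
    nlinarith
  have hlen1 : μH[1] (segment ℝ (0 : ℂ) (z 0)) ≤ ENNReal.ofReal ε := by
    rw [hausdorffMeasure_segment, hz0, edist_dist, dist_zero_left]
    exact ENNReal.ofReal_le_ofReal hz₀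
  have hFz : ∀ t, 0 ≤ t → t ≤ τ → ‖F.eval (z t)‖ ≤ 1 := by
    intro t ht0 ht1
    rw [hlift t ht0 ht1, norm_mul, Complex.norm_real, Real.norm_eq_abs, abs_of_nonneg (by linarith)]
    nlinarith
  by_cases hout : ∃ t ∈ Icc 0 τ, 1 ≤ ‖z t‖
  · -- the curve leaves the open disc
    have hS : IsCompact (Icc 0 τ ∩ {t | 1 ≤ ‖z t‖}) :=
      isCompact_Icc.inter_right (isClosed_le continuous_const hzc.norm)
    obtain ⟨T, ⟨hT1, hT2⟩, hleast⟩ := hS.exists_isLeast (by
      obtain ⟨t, ht, ht'⟩ := hout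
      exact ⟨t, ht, ht'⟩)
    have hlt : ∀ t, 0 ≤ t → t < T → ‖z t‖ < 1 := by
      intro t h0t htT
      by_contra hc
      push Not at hc
      have := hleast ⟨⟨h0t, htT.le.trans hT1.2⟩, hc⟩
      linarith
    have hT0 : 0 < T := by
      rcases hT1.1.eq_or_lt with h | h
      · exfalso
        rw [← h] at hT2
        exact absurd hT2 (not_le.2 hzn0)
      · exact h
    have hTn : ‖z T‖ = 1 := by
      refine le_antisymm ?_ hT2
      have hcl : T ∈ closure (Ico 0 T) := by
        rw [closure_Ico hT0.ne]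
        exact ⟨hT0.le, le_rfl⟩
      have := closure_minimal (s := Ico 0 T) (t := {t | ‖z t‖ ≤ 1})
        (fun t ht => (hlt t ht.1 ht.2).le) (isClosed_le hzc.norm continuous_const) hcl
      exact this
    have hle : ∀ t, 0 ≤ t → t ≤ T → ‖z t‖ ≤ 1 := by
      intro t ht0 ht1
      rcases ht1.eq_or_lt with h | h
      · rw [h]; exact hTn.le
      · exact (hlt t ht0 h).le
    refine ⟨z T, (Path.segment 0 (z 0)).trans (curvePath z hzc T), hTn, ?_, ?_⟩
    · intro t
      have hmem : ((Path.segment 0 (z 0)).trans (curvePath z hzc T)) t ∈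
          range (Path.segment 0 (z 0)) ∪ range (curvePath z hzc T) := by
        rw [← Path.trans_range]; exact mem_range_self t
      rcases hmem with h | h
      · rw [Path.range_segment] at h
        exact hseg1 _ h
      · obtain ⟨s, hs, hse⟩ := range_curvePath z hzc hT0.le h
        rw [← hse]
        exact ⟨hFz s hs.1 (hs.2.trans hT1.2), hle s hs.1 hs.2⟩
    · rw [Path.trans_range, Path.range_segment]
      refine (measure_union_le _ _).trans ?_
      have h5 : μH[1] (range (curvePath z hzc T)) ≤ 4 * F.natDegree :=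
        (measure_mono (range_curvePath z hzc hT0.le)).trans
          (curve_length F hn (F.eval z₀) hFz₀ T hT0.le z hzc hle
            (fun t h1 h2 => hlift t h1 (h2.trans hT1.2)))
      calc μH[1] (segment ℝ (0 : ℂ) (z 0)) + μH[1] (range (curvePath z hzc T))
          ≤ ENNReal.ofReal ε + 4 * F.natDegree := add_le_add hlen1 h5
        _ = 4 * F.natDegree + ENNReal.ofReal ε := add_comm _ _
        _ ≤ _ := by
            gcongr
            linarith
  · -- the curve stays in the open disc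
    push Not at hout
    have hle : ∀ t, 0 ≤ t → t ≤ τ → ‖z t‖ ≤ 1 := fun t h1 h2 => (hout t ⟨h1, h2⟩).le
    have hτn : ‖z τ‖ < 1 := hout τ ⟨hτ0.le, le_rfl⟩
    have hsmall : ‖F.eval (z τ)‖ < δ := by
      rw [hlift τ hτ0.le le_rfl, norm_mul, Complex.norm_real, Real.norm_eq_abs,
        abs_of_nonneg (by linarith)]
      exact hτδ
    obtain ⟨a, η, hηε, ha, hza, hball⟩ := hnear (z τ) hτn.le hsmall
    have ha1 := hz a ha
    -- crossing point of the unit circle
    have hiv := intermediate_value_Icc (f := fun s : ℝ => ‖AffineMap.lineMap (z τ) a s‖)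
      (zero_le_one) (by
        apply Continuous.continuousOn
        exact AffineMap.lineMap_continuous.norm)
    obtain ⟨s, hs, hsp⟩ := hiv (show (1 : ℝ) ∈ Icc _ _ by
      simp only [AffineMap.lineMap_apply_zero, AffineMap.lineMap_apply_one]
      exact ⟨hτn.le, ha1⟩)
    obtain ⟨p, hp⟩ : ∃ p, p = AffineMap.lineMap (z τ) a s := ⟨_, rfl⟩
    have hpn : ‖p‖ = 1 := by rw [hp]; exact hsp
    have hη : 0 < η := lt_of_le_of_lt dist_nonneg hza
    have haη : a ∈ Metric.ball a η := Metric.mem_ball_self hη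
    have hpseg : p ∈ segment ℝ (z τ) a := by
      rw [segment_eq_image_lineMap, hp]
      exact ⟨s, hs, rfl⟩
    have hpb : p ∈ Metric.ball a η := (convex_ball a η).segment_subset hza haη hpseg
    have hseg3 : ∀ y ∈ segment ℝ (z τ) p, ‖F.eval y‖ ≤ 1 ∧ ‖y‖ ≤ 1 := by
      intro y hy
      refine ⟨hball y ((convex_ball a η).segment_subset hza hpb hy), ?_⟩
      have := (convex_closedBall (0 : ℂ) 1).segment_subset (x := z τ) (y := p)
        (by rw [mem_closedBall_zero_iff]; exact hτn.le)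
        (by rw [mem_closedBall_zero_iff]; exact hpn.le) hy
      rwa [mem_closedBall_zero_iff] at this
    have hlen3 : μH[1] (segment ℝ (z τ) p) ≤ ENNReal.ofReal ε := by
      rw [hausdorffMeasure_segment, edist_dist]
      apply ENNReal.ofReal_le_ofReal
      have h1 : dist (z τ) p ≤ dist (z τ) a := by
        rw [hp, dist_comm, dist_lineMap_left, dist_eq_norm, Real.norm_eq_abs, abs_of_nonneg hs.1]
        have := norm_nonneg (z τ - a)
        have := hs.2
        nlinarith
      have h2 : dist (z τ) a < η := hza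
      linarith
    refine ⟨p, ((Path.segment 0 (z 0)).trans (curvePath z hzc τ)).trans (Path.segment (z τ) p),
      hpn, ?_, ?_⟩
    · intro t
      have hmem : (((Path.segment 0 (z 0)).trans (curvePath z hzc τ)).trans
          (Path.segment (z τ) p)) t ∈
          (range (Path.segment 0 (z 0)) ∪ range (curvePath z hzc τ)) ∪
            range (Path.segment (z τ) p) := by
        rw [← Path.trans_range, ← Path.trans_range]; exact mem_range_self t
      rcases hmem with (h | h) | h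
      · rw [Path.range_segment] at h
        exact hseg1 _ h
      · obtain ⟨s, hs, hse⟩ := range_curvePath z hzc hτ0.le h
        rw [← hse]
        exact ⟨hFz s hs.1 hs.2, hle s hs.1 hs.2⟩
      · rw [Path.range_segment] at h
        exact hseg3 _ h
    · rw [Path.trans_range, Path.trans_range, Path.range_segment, Path.range_segment]
      refine (measure_union_le _ _).trans ?_
      have h5 : μH[1] (range (curvePath z hzc τ)) ≤ 4 * F.natDegree :=
        (measure_mono (range_curvePath z hzc hτ0.le)).trans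
          (curve_length F hn (F.eval z₀) hFz₀ τ hτ0.le z hzc hle hlift)
      calc μH[1] (segment ℝ (0 : ℂ) (z 0) ∪ range (curvePath z hzc τ)) +
            μH[1] (segment ℝ (z τ) p)
          ≤ (ENNReal.ofReal ε + 4 * F.natDegree) + ENNReal.ofReal ε :=
            add_le_add ((measure_union_le _ _).trans (add_le_add hlen1 h5)) hlen3
        _ = 4 * F.natDegree + (ENNReal.ofReal ε + ENNReal.ofReal ε) := by ring
        _ = 4 * F.natDegree + ENNReal.ofReal (2 * ε) := by
            rw [← ENNReal.ofReal_add hε.le hε.le, two_mul]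

end Pool.Agent.X882.Esc
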